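import Pool.Agent.helper91.HR.XN

/-!
HR project (MP_58257a_co, S08871), row XS: the exchange step for matched pairs in the position
upper left / lower right (helper67, after helper91's row XN).
-/

set_option autoImplicit false

namespace Pool.Agent.helper78.HR

open Finset

/-- row XS. Exchange for SE matched pairs. -/
theorem exch_SE {ι : Type*} [Fintype ι] (x y : ι → ℤ) (K : ℕ) (hK : 1 ≤ K)
    (V : Finset (ℤ × ℤ)) (f g : Fm ι) (hf : f ∈ Fam x y K V) (hg : g ∈ Fam x y K V)
    (h : MSE x y K f g) :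
    ∃ h1 ∈ Fam x y K V, ∃ h2 ∈ Fam x y K V,
      (∀ z : ℤ × ℤ, (if In x y h1 z then 1 else 0) + (if In x y h2 z then 1 else 0) ≤
        (if In x y f z then 1 else 0) + (if In x y g z then (1 : ℕ) else 0)) ∧
      ar x y h1 + ar x y h2 < ar x y f + ar x y g := by
  classical
  obtain ⟨hfF, hfK, hfV⟩ := (mem_Fam x y).1 hf
  obtain ⟨hgF, hgK, hgV⟩ := (mem_Fam x y).1 hg
  obtain ⟨m1, m2, m3, m4, m5, m6, m7, m8, m9⟩ := h
  -- the second box has `K` points too
  have hsum : (Pts x y (x g.1) (x f.2.1) (y g.2.2.1) (y f.2.2.2)).card +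
      (Pts x y (x f.1) (x g.2.1) (y f.2.2.1) (y g.2.2.2)).card =
      (cont x y f).card + (cont x y g).card := by
    simp only [cont, Pts, Finset.card_filter, ← Finset.sum_add_distrib]
    refine Finset.sum_congr rfl fun s _ => ?_
    have a7 := m7 s
    have a8 := m8 s
    by_cases q1 : x f.1 ≤ x s <;> by_cases q2 : x s ≤ x f.2.1 <;>
    by_cases q3 : x g.1 ≤ x s <;> by_cases q4 : x s ≤ x g.2.1 <;>
    by_cases q5 : y f.2.2.1 ≤ y s <;> by_cases q6 : y s ≤ y f.2.2.2 <;>
    by_cases q7 : y g.2.2.1 ≤ y s <;> by_cases q8 : y s ≤ y g.2.2.2 <;>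
    simp only [q1, q2, q3, q4, q5, q6, q7, q8, true_and, and_true, false_and, and_false,
      if_true, if_false] <;>
    first
      | rfl
      | (exfalso; omega)
  have hK2 : (Pts x y (x f.1) (x g.2.1) (y f.2.2.1) (y g.2.2.2)).card = K := by
    rw [m9, hfK, hgK] at hsum
    omega
  obtain ⟨h1, a1, a2, a3, a4, a5, a6⟩ := hrXN_hull x y (x g.1) (x f.2.1) (y g.2.2.1) (y f.2.2.2)
    (Finset.card_pos.1 (by rw [m9]; omega))
  obtain ⟨h2, b1, b2, b3, b4, b5, b6⟩ := hrXN_hull x y (x f.1) (x g.2.1) (y f.2.2.1) (y g.2.2.2)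
    (Finset.card_pos.1 (by rw [hK2]; omega))
  have hload : ∀ z : ℤ × ℤ, (if In x y h1 z then 1 else 0) + (if In x y h2 z then 1 else 0) ≤
        (if In x y f z then 1 else 0) + (if In x y g z then (1 : ℕ) else 0) := by
    intro z
    have k1 : In x y h1 z → In x y f z ∨ In x y g z := by
      rintro ⟨c1, c2, c3, c4⟩
      rcases le_total (y f.2.2.1) z.2 with c | c
      · exact Or.inl ⟨by omega, by omega, c, by omega⟩
      · exact Or.inr ⟨by omega, by omega, by omega, by omega⟩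
    have k2 : In x y h2 z → In x y f z ∨ In x y g z := by
      rintro ⟨c1, c2, c3, c4⟩
      rcases le_total z.1 (x f.2.1) with c | c
      · exact Or.inl ⟨by omega, by omega, by omega, by omega⟩
      · exact Or.inr ⟨by omega, by omega, by omega, by omega⟩
    have k3 : In x y h1 z → In x y h2 z → In x y f z ∧ In x y g z := by
      rintro ⟨c1, c2, c3, c4⟩ ⟨d1, d2, d3, d4⟩
      exact ⟨⟨by omega, by omega, by omega, by omega⟩, ⟨by omega, by omega, by omega, by omega⟩⟩
    by_cases p1 : In x y h1 z <;> by_cases p2 : In x y h2 z <;>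
      by_cases p3 : In x y f z <;> by_cases p4 : In x y g z <;>
      simp_all
  refine ⟨h1, (mem_Fam x y).2 ⟨a1, by rw [a2, m9], fun z hz hin => ?_⟩, h2,
    (mem_Fam x y).2 ⟨b1, by rw [b2, hK2], fun z hz hin => ?_⟩, hload, ?_⟩
  · have := hload z
    simp only [hin, hfV z hz, hgV z hz, if_true, if_false] at this
    omega
  · have := hload z
    simp only [hin, hfV z hz, hgV z hz, if_true, if_false] at this
    omega
  · have e1 := hrXN_ar_le x y h1 a1 _ _ _ _ a3 a4 a5 a6
    have e2 := hrXN_ar_le x y h2 b1 _ _ _ _ b3 b4 b5 b6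
    have e3 := hrXN_ar_eq x y f hfF
    have e4 := hrXN_ar_eq x y g hgF
    have e5 : 0 < (x g.1 - x f.1) * (y f.2.2.2 - y g.2.2.2) :=
      mul_pos (by linarith) (by linarith)
    have e6 : 0 < (x g.2.1 - x f.2.1) * (y f.2.2.1 - y g.2.2.1) :=
      mul_pos (by linarith) (by linarith)
    have : (ar x y h1 : ℤ) + ar x y h2 < ar x y f + ar x y g := by
      rw [e3, e4]
      have e7 : (x f.2.1 - x f.1 + 1) * (y f.2.2.2 - y f.2.2.1 + 1) +
          (x g.2.1 - x g.1 + 1) * (y g.2.2.2 - y g.2.2.1 + 1) =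
          (x f.2.1 - x g.1 + 1) * (y f.2.2.2 - y g.2.2.1 + 1) +
          (x g.2.1 - x f.1 + 1) * (y g.2.2.2 - y f.2.2.1 + 1) +
          (x g.1 - x f.1) * (y f.2.2.2 - y g.2.2.2) +
          (x g.2.1 - x f.2.1) * (y f.2.2.1 - y g.2.2.1) := by ring
      rw [e7]
      linarith
    exact_mod_cast this

end Pool.Agent.helper78.HR
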